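import Pool.Agent.H88.B2.Targets

/-! L2W: energy at width `w` with density (board bpd_modules, MP_ee74d2_an). -/

set_option autoImplicit false

namespace Pool.Agent.H46.B2.L2W

open MeasureTheory Set
open Pool.Agent.H83.G Pool.Agent.H88.B2
open scoped ENNReal NNReal RealInnerProductSpace

variable {m : ℕ}

private theorem e_cont : Continuous e := by
  unfold e
  fun_prop

private theorem ph_cont : Continuous fun q : Z m × Z m => ph q.1 q.2 := by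
  unfold ph
  fun_prop

private theorem tf_meas {G : Z m → ℂ} (hG : TC G) : Measurable (TF G) := by
  have h1 : Continuous fun q : Z m × Z m => e (ph q.1 q.2) * G q.2 :=
    (e_cont.comp ph_cont).mul (hG.1.continuous.comp continuous_snd)
  exact (h1.stronglyMeasurable.integral_prod_right').measurable

/-- Hölder with a weight -/
private theorem holder1 (f M ω : Z m → ℝ≥0∞) (hf : Measurable f) (hM : Measurable M)
    (hω : Measurable ω) (hM0 : ∀ z, M z ≠ 0) (hMt : ∀ z, M z ≠ ⊤) (p : ℝ) (hp : 2 < p) :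
    ∫⁻ z, f z ^ 2 * ω z ≤ (∫⁻ z, f z ^ p * M z ^ (1 - p / 2) * ω z) ^ (2 / p) *
      (∫⁻ z, M z * ω z) ^ (1 - 2 / p) := by
  have hp0 : 0 < p := by linarith
  have h2p : 0 ≤ 2 / p := by positivity
  have h2p' : 0 ≤ 1 - 2 / p := by
    rw [sub_nonneg, div_le_one hp0]; exact hp.le
  have h1 : ∀ z, f z ^ 2 * ω z = (f z ^ p * M z ^ (1 - p / 2) * ω z) ^ (2 / p) *
      (M z * ω z) ^ (1 - 2 / p) := by
    intro z
    rw [ENNReal.mul_rpow_of_nonneg _ _ h2p, ENNReal.mul_rpow_of_nonneg _ _ h2p,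
      ENNReal.mul_rpow_of_nonneg _ _ h2p', ← ENNReal.rpow_mul, ← ENNReal.rpow_mul]
    have e1 : p * (2 / p) = 2 := by field_simp
    have e2 : (1 - p / 2) * (2 / p) = -(1 - 2 / p) := by field_simp; ring
    rw [e1, e2]
    have e3 : M z ^ (-(1 - 2 / p)) * M z ^ (1 - 2 / p) = 1 := by
      rw [← ENNReal.rpow_add _ _ (hM0 z) (hMt z), neg_add_cancel, ENNReal.rpow_zero]
    have e4 : ω z ^ (2 / p) * ω z ^ (1 - 2 / p) = ω z := by
      rw [← ENNReal.rpow_add_of_nonneg _ _ h2p h2p', add_sub_cancel, ENNReal.rpow_one]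
    calc f z ^ 2 * ω z = f z ^ (2 : ℝ) * (M z ^ (-(1 - 2 / p)) * M z ^ (1 - 2 / p)) *
          (ω z ^ (2 / p) * ω z ^ (1 - 2 / p)) := by
          rw [e3, e4, mul_one, ENNReal.rpow_two]
      _ = _ := by ring
  simp_rw [h1]
  exact ENNReal.lintegral_mul_norm_pow_le
    ((((hf.pow_const _).mul (hM.pow_const _)).mul hω).aemeasurable) ((hM.mul hω).aemeasurable)
    h2p h2p' (by ring)

/-- Hölder for sums -/
private theorem holder_sum {ι : Type} (I : Finset ι) (A B : ι → ℝ≥0∞) (θ : ℝ) (h0 : 0 < θ)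
    (h1 : θ < 1) :
    ∑ k ∈ I, A k ^ θ * B k ^ (1 - θ) ≤ (∑ k ∈ I, A k) ^ θ * (∑ k ∈ I, B k) ^ (1 - θ) := by
  have h := ENNReal.inner_le_Lp_mul_Lq I (fun k => A k ^ θ) (fun k => B k ^ (1 - θ))
    (Real.HolderConjugate.inv_one_sub_inv h0 h1)
  refine h.trans (le_of_eq ?_)
  have e1 : ∀ k, (A k ^ θ) ^ θ⁻¹ = A k := fun k => by
    rw [← ENNReal.rpow_mul, mul_inv_cancel₀ h0.ne', ENNReal.rpow_one]
  have e2 : ∀ k, (B k ^ (1 - θ)) ^ (1 - θ)⁻¹ = B k := fun k => by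
    rw [← ENNReal.rpow_mul, mul_inv_cancel₀ (by linarith), ENNReal.rpow_one]
  simp only [e1, e2, one_div, inv_inv]

private theorem fc_cont (R δ : ℝ) (k : Fin m → ℤ) : Continuous (fc R δ k : Z m → Z m) := by
  unfold fc Lo
  fun_prop

private theorem wt_pos (N : ℕ) (x : Z m) : 0 < wt N x := by unfold wt; positivity

private theorem MS_cont (hWT1 : T_WT1) (N : ℕ) (R δ : ℝ) (S : Finset (Pk m)) :
    Continuous (MS N R δ S) := by
  unfold MS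
  refine continuous_finsetSum _ fun W _ => ?_
  exact (hWT1 m N).2.1.comp ((fc_cont R δ W.1).sub continuous_const)

private theorem MS_pos (N : ℕ) (R δ : ℝ) (S : Finset (Pk m)) (hS : S.Nonempty) (z : Z m) :
    0 < MS N R δ S z := by
  unfold MS
  exact Finset.sum_pos (fun _ _ => wt_pos N _) hS

private theorem MS_nonneg (N : ℕ) (R δ : ℝ) (S : Finset (Pk m)) (z : Z m) :
    0 ≤ MS N R δ S z := Finset.sum_nonneg fun _ _ => (wt_pos N _).le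

/-- the functions `TP` are of the form `TF` -/
private theorem TP_TC (hCPS : T_CPS) {β : E m → ℂ} (hβ : IsPU β) {κ R : ℝ} (hκ : κ ≤ 3 / 8)
    (hR : 1 ≤ R) {G : Z m → ℂ} (hG : TC G) (hsupp : ∀ ζ, G ζ ≠ 0 → ζ ∈ Rg m κ R⁻¹) (η : E m) :
    TC (fun ζ => cp β η (sR R) ζ * G ζ) := by
  refine hCPS m β η (sR R) G hβ.1 ?_ hG fun ζ hζ => ?_
  · unfold sR
    exact inv_pos.mpr (Real.sqrt_pos.mpr (by linarith))
  · have := (hsupp ζ hζ).1
    linarith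

private theorem al_mono (hPLN : T_PLN) (hCPS : T_CPS) (hWT1 : T_WT1) {β : E m → ℂ}
    (hβ : IsPU β) {κ R δ : ℝ} (hκ : κ ≤ 3 / 8) (hR : 1 ≤ R) {G : Z m → ℂ} (hG : TC G)
    (hsupp : ∀ ζ, G ζ ≠ 0 → ζ ∈ Rg m κ R⁻¹) (N M : ℕ) (hNM : N ≤ M) (W : Pk m) :
    al M β R δ G W ≤ al N β R δ G W := by
  have h1 : al2 M β R δ G W ≤ al2 N β R δ G W := by
    unfold al2
    refine mul_le_mul' le_rfl (lintegral_mono fun z => mul_le_mul' le_rfl ?_)
    exact ENNReal.ofReal_le_ofReal ((hWT1 m N).2.2.2.2.1 _ M hNM)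
  have h2 : al2 N β R δ G W ≠ ⊤ := by
    unfold al2
    refine ENNReal.mul_ne_top ENNReal.ofReal_ne_top ?_
    refine ne_top_of_le_ne_top (b := ∫⁻ z, ‖TP β (ctr (sR R) W.1) (sR R) G z‖ₑ ^ 2) ?_ ?_
    · unfold TP
      rw [(hPLN m _ (TP_TC hCPS hβ hκ hR hG hsupp _)).1]
      exact ENNReal.ofReal_ne_top
    · refine lintegral_mono fun z => ?_
      refine mul_le_of_le_one_right zero_le ?_
      rw [← ENNReal.ofReal_one]
      exact ENNReal.ofReal_le_ofReal ((hWT1 m N).1 _).2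
  unfold al
  exact Real.sqrt_le_sqrt (ENNReal.toReal_mono h2 h1)

private theorem Fp_meas (hCPS : T_CPS) {β : E m → ℂ} (hβ : IsPU β) {Ψ : Z m → ℂ} {ψ : Z m → ℝ}
    (hΨ : IsPsi Ψ ψ) {κ R δ : ℝ} (hκ : κ ≤ 3 / 8) (hR : 1 ≤ R) {G : Z m → ℂ} (hG : TC G)
    (hsupp : ∀ ζ, G ζ ≠ 0 → ζ ∈ Rg m κ R⁻¹) (W : Pk m) : Measurable (Fp β ψ R δ G W) := by
  have h1 : Measurable (TP β (ctr (sR R) W.1) (sR R) G) := by
    unfold TP
    exact tf_meas (TP_TC hCPS hβ hκ hR hG hsupp _)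
  have h2 : Measurable (fun z => (ψ z : ℂ)) := by
    have : (fun z => (ψ z : ℂ)) = TF Ψ := funext hΨ.2.2.1
    rw [this]
    exact tf_meas hΨ.1
  have h3 : Measurable (fun z : Z m => (ψ (fc R δ W.1 z - zc W.2) : ℂ)) :=
    h2.comp ((fc_cont R δ W.1).sub continuous_const).measurable
  exact h1.mul h3

/-- the last step in real numbers -/
private theorem fin_real (δ : ℝ) (hδ : 0 < δ) (hδ' : δ ≤ 1 / 100) (x a A B E R : ℝ)
    (cA : ℝ) (hE : 1 ≤ E) (hx : 0 ≤ x) (ha : 0 < a)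
    (hR : 1 ≤ R) (hA : 0 < A) (hA' : A ≤ E * R ^ (38 : ℝ)) (hB : R ^ (-(10 : ℝ)) ≤ B)
    (h : x ≤ cA * ((A * (2 * a) ^ (4 - δ)) ^ (2 / (4 - δ)) * B ^ (1 - 2 / (4 - δ)))) :
    x ^ 2 ≤ 16 * cA ^ 2 * E * R ^ (16 * δ) * a ^ 4 * A * B := by
  have hR0 : 0 < R := by linarith
  have hP : 0 < 4 - δ := by linarith
  have hB0 : 0 < B := lt_of_lt_of_le (Real.rpow_pos_of_pos hR0 _) hB
  have h2a : 0 < 2 * a := by linarith
  have e0 : (A * (2 * a) ^ (4 - δ)) ^ (2 / (4 - δ)) = A ^ (2 / (4 - δ)) * (2 * a) ^ 2 := by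
    rw [Real.mul_rpow hA.le (by positivity), ← Real.rpow_mul h2a.le]
    congr 1
    rw [show (4 - δ) * (2 / (4 - δ)) = 2 by field_simp, Real.rpow_two]
  rw [e0] at h
  have h1 : x ^ 2 ≤ (cA * (A ^ (2 / (4 - δ)) * (2 * a) ^ 2 * B ^ (1 - 2 / (4 - δ)))) ^ 2 :=
    pow_le_pow_left₀ hx h 2
  have e1 : (A ^ (2 / (4 - δ))) ^ 2 = A * A ^ (δ / (4 - δ)) := by
    rw [← Real.rpow_natCast, ← Real.rpow_mul hA.le]
    nth_rewrite 2 [← Real.rpow_one A]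
    rw [← Real.rpow_add hA]
    congr 1
    push_cast
    field_simp
    ring
  have e2 : (B ^ (1 - 2 / (4 - δ))) ^ 2 = B * B ^ (-(δ / (4 - δ))) := by
    rw [← Real.rpow_natCast, ← Real.rpow_mul hB0.le]
    nth_rewrite 2 [← Real.rpow_one B]
    rw [← Real.rpow_add hB0]
    congr 1
    push_cast
    field_simp
    ring
  have h2 : (cA * (A ^ (2 / (4 - δ)) * (2 * a) ^ 2 * B ^ (1 - 2 / (4 - δ)))) ^ 2 =
      16 * cA ^ 2 * a ^ 4 * A * B * (A ^ (δ / (4 - δ)) * B ^ (-(δ / (4 - δ)))) := by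
    calc _ = cA ^ 2 * (A ^ (2 / (4 - δ))) ^ 2 * (2 * a) ^ 4 * (B ^ (1 - 2 / (4 - δ))) ^ 2 := by
          ring
      _ = _ := by rw [e1, e2]; ring
  have hθ0 : 0 ≤ δ / (4 - δ) := by positivity
  have hθ1 : δ / (4 - δ) ≤ δ / 3 := div_le_div_of_nonneg_left hδ.le (by norm_num) (by linarith)
  have hθ2 : δ / (4 - δ) ≤ 1 := hθ1.trans (by linarith)
  have h3 : A ^ (δ / (4 - δ)) * B ^ (-(δ / (4 - δ))) ≤ E * R ^ (16 * δ) := by
    have h4 : A ^ (δ / (4 - δ)) ≤ (E * R ^ (38 : ℝ)) ^ (δ / (4 - δ)) :=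
      Real.rpow_le_rpow hA.le hA' hθ0
    have h5 : B ^ (-(δ / (4 - δ))) ≤ (R ^ (10 : ℝ)) ^ (δ / (4 - δ)) := by
      rw [Real.rpow_neg hB0.le, ← Real.inv_rpow hB0.le]
      refine Real.rpow_le_rpow (inv_nonneg.mpr hB0.le) ?_ hθ0
      rw [Real.rpow_neg hR0.le] at hB
      exact (inv_le_comm₀ (Real.rpow_pos_of_pos hR0 _) hB0).mp hB
    have h6 : A ^ (δ / (4 - δ)) * B ^ (-(δ / (4 - δ))) ≤
        (E * R ^ (38 : ℝ)) ^ (δ / (4 - δ)) * (R ^ (10 : ℝ)) ^ (δ / (4 - δ)) :=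
      mul_le_mul h4 h5 (by positivity) (by positivity)
    have h7 : (E * R ^ (38 : ℝ)) ^ (δ / (4 - δ)) * (R ^ (10 : ℝ)) ^ (δ / (4 - δ)) =
        E ^ (δ / (4 - δ)) * R ^ (48 * (δ / (4 - δ))) := by
      rw [Real.mul_rpow (by linarith) (by positivity), ← Real.rpow_mul hR0.le,
        ← Real.rpow_mul hR0.le, mul_assoc, ← Real.rpow_add hR0]
      congr 2
      ring
    have h8 : E ^ (δ / (4 - δ)) ≤ E := by
      nth_rewrite 2 [← Real.rpow_one E]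
      exact Real.rpow_le_rpow_of_exponent_le hE hθ2
    have h9 : R ^ (48 * (δ / (4 - δ))) ≤ R ^ (16 * δ) :=
      Real.rpow_le_rpow_of_exponent_le hR (by linarith)
    rw [h7] at h6
    exact h6.trans (mul_le_mul h8 h9 (by positivity) (by linarith))
  rw [h2] at h1
  refine h1.trans ?_
  calc 16 * cA ^ 2 * a ^ 4 * A * B * (A ^ (δ / (4 - δ)) * B ^ (-(δ / (4 - δ))))
      ≤ 16 * cA ^ 2 * a ^ 4 * A * B * (E * R ^ (16 * δ)) :=
        mul_le_mul_of_nonneg_left h3 (by positivity)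
    _ = _ := by ring

open scoped Classical in
theorem pf_L2W (hDEN : T_DEN) (hRDI : T_RDI) (hL2A : T_L2A) (hL2C : T_L2C) (hL2D : T_L2D)
    (hGRP : T_GRP) (hWWE : T_WWE) (hWT1 : T_WT1) (hOM1 : T_OM1) (hPLN : T_PLN)
    (hCPS : T_CPS) : T_L2W := by
  intro β Ψ ψ δ N hβ hΨ hδ hδ' hN
  have hP2 : 2 < 4 - δ := by linarith
  have hP0 : 0 < 4 - δ := by linarith
  obtain ⟨cD, hcD, hD⟩ := hDEN 2 N (4 * N + 5) (4 * N + 5) (by norm_num) (by omega) (by omega)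
    (by omega)
  obtain ⟨cR, hcR, hRD⟩ := hRDI 2 (2 * N + 2) β Ψ ψ δ (4 - δ) (by norm_num) hβ hΨ hδ
    (by linarith) (by omega) hP2.le (by push_cast; linarith)
  obtain ⟨cA, hcA, hA⟩ := hL2A 2 (4 * N + 5) β Ψ ψ δ (by norm_num) hβ hΨ hδ (by linarith)
    (by omega)
  obtain ⟨cC, hcC, hC⟩ := hL2C 2 (2 * N + 2) (4 * N + 5) β Ψ ψ δ (4 - δ) (by norm_num) hβ hΨ hδ
    (by linarith) hP2.le (by linarith) (by omega) (by omega)
  obtain ⟨cL, hcL, hL⟩ := hL2D 2 N (2 * N + 2) (4 * N + 5) (by norm_num) le_rfl (by omega)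
  obtain ⟨cO, hcO, hO⟩ := hOM1 2 (4 * N + 5) (by omega)
  set Ec : ℝ := 4 * cC * cD * cR with hEc
  have hE1 : 1 ≤ Ec := by
    rw [hEc]
    have h1 : 1 ≤ cC * cD := one_le_mul_of_one_le_of_one_le hcC hcD
    have h2 : 1 ≤ cC * cD * cR := one_le_mul_of_one_le_of_one_le h1 hcR
    nlinarith
  have hcRE : cR ≤ Ec := by
    rw [hEc]
    have h1 : 1 ≤ cC * cD := one_le_mul_of_one_le_of_one_le hcC hcD
    nlinarith
  have hcCE : cC ≤ Ec := by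
    rw [hEc]
    have h1 : 1 ≤ cD * cR := one_le_mul_of_one_le_of_one_le hcD hcR
    nlinarith
  set Cf : ℝ := 16 * cA ^ 2 * Ec ^ 2 * cL with hCf
  have hcA2 : cA ≤ cA ^ 2 := by nlinarith
  have hEc2 : Ec ≤ Ec ^ 2 := by nlinarith
  have hcA20 : 1 ≤ cA ^ 2 := by nlinarith
  have hEc20 : 1 ≤ Ec ^ 2 := by nlinarith
  have hCfE : Ec ≤ Cf := by
    rw [hCf]
    have h1 : 1 ≤ cA ^ 2 * cL := one_le_mul_of_one_le_of_one_le hcA20 hcL
    have h2 : Ec ^ 2 * 1 ≤ Ec ^ 2 * (cA ^ 2 * cL) := mul_le_mul_of_nonneg_left h1 (by positivity)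
    nlinarith
  have hCfA : cA ≤ Cf := by
    rw [hCf]
    have h1 : 1 ≤ Ec ^ 2 * cL := one_le_mul_of_one_le_of_one_le hEc20 hcL
    have h2 : cA ^ 2 * 1 ≤ cA ^ 2 * (Ec ^ 2 * cL) := mul_le_mul_of_nonneg_left h1 (by positivity)
    nlinarith
  have hCf1 : 1 ≤ Cf := hE1.trans hCfE
  refine ⟨Cf, hCf1, ?_⟩
  intro κ R w K a H D₁ D₂ D₃ G P P' X Q hκ0 hκ hR hCR hRw hwR hK hKw ha hH hD₁ hD₂ hD₃ hD₃'
    hG hsupp hP hPc hP' hPP' hX hQ hXQ hXH hQN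
  have hR0 : 0 < R := by linarith
  have hsR : 0 < Real.sqrt R := Real.sqrt_pos.mpr hR0
  have hw1 : 1 ≤ w := le_trans (Real.one_le_rpow hR hδ.le) hRw
  have hw0 : 0 < w := by linarith
  have hwR1 : w ≤ Real.sqrt R := le_trans (by nlinarith) hwR
  have hD₁0 : 0 < D₁ := lt_of_lt_of_le (Real.rpow_pos_of_pos hR0 _) hD₁
  have hD₂0 : 0 < D₂ := lt_of_lt_of_le (Real.rpow_pos_of_pos hR0 _) hD₂
  have hRHS : 0 ≤ Cf * K ^ 2 * R ^ (lo 2 * (8 * δ)) * (D₃ / D₂) * a ^ 4 * P.card *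
    R ^ 2 * (Q.card * w ^ 4 * D₁) := by positivity
  rcases X.eq_empty_or_nonempty with rfl | hXne
  · simpa using hRHS
  obtain ⟨z₀, hz₀⟩ := hXne
  have hPne : P.Nonempty := by
    by_contra h
    rw [Finset.not_nonempty_iff_eq_empty] at h
    have := hXH z₀ hz₀
    rw [h, Finset.sum_empty, norm_zero] at this
    linarith
  obtain ⟨x₀, hx₀, -⟩ := hXQ z₀ hz₀
  obtain ⟨g, hg⟩ := hGRP 2 w⁻¹ (inv_pos.mpr hw0)
  set I : Finset (Fin 2 → ℤ) := P.image (fun W => g (ctr (sR R) W.1)) with hI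
  set Pf : (Fin 2 → ℤ) → Finset (Pk 2) := fun k => P.filter (fun W => g (ctr (sR R) W.1) = k)
    with hPf
  have hPfne : ∀ k ∈ I, (Pf k).Nonempty := by
    intro k hk
    obtain ⟨W, hW, rfl⟩ := Finset.mem_image.mp hk
    exact ⟨W, by simp [hPf, hW]⟩
  set Ω : Z 2 → ℝ≥0∞ := fun z => ENNReal.ofReal (Om (4 * N + 5) w Q z) with hΩ
  have hΩm : Measurable Ω := ENNReal.measurable_ofReal.comp (hO w Q hw0).1.measurable
  -- energy at width `w`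
  have hstep1 := hA κ R w G P g X Q hκ0 hκ hR (hCfA.trans hCR) hG hsupp hw1 hwR1
    (fun W hW => ⟨(hP W hW).1, (hP W hW).2.1⟩) hg hX hXQ
  have hlow : ENNReal.ofReal ((X.card : ℝ) * H ^ 2) ≤
      ∑ z ∈ X, ‖∑ W ∈ P, Fp β ψ R δ G W z‖ₑ ^ 2 := by
    calc ENNReal.ofReal ((X.card : ℝ) * H ^ 2) = ∑ z ∈ X, ENNReal.ofReal (H ^ 2) := by
          rw [Finset.sum_const, nsmul_eq_mul, ENNReal.ofReal_mul (by positivity),
            ENNReal.ofReal_natCast]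
      _ ≤ _ := by
          refine Finset.sum_le_sum fun z hz => ?_
          rw [ENNReal.ofReal_pow hH.le, ← ofReal_norm]
          exact pow_le_pow_left₀ zero_le (ENNReal.ofReal_le_ofReal (hXH z hz)) 2
  -- the two integrals for one cap
  set Fk : (Fin 2 → ℤ) → Z 2 → ℝ≥0∞ := fun k z => ‖∑ W ∈ Pf k, Fp β ψ R δ G W z‖ₑ with hFk
  set Mk : (Fin 2 → ℤ) → Z 2 → ℝ≥0∞ := fun k z => ENNReal.ofReal (MS (2 * N + 2) R δ (Pf k) z)
    with hMk
  have hFkm : ∀ k, Measurable (Fk k) := fun k =>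
    (Finset.measurable_sum _ fun W _ => Fp_meas hCPS hβ hΨ hκ hR hG hsupp W).enorm
  have hMkm : ∀ k, Measurable (Mk k) := fun k =>
    ENNReal.measurable_ofReal.comp (MS_cont hWT1 _ R δ _).measurable
  set Ak : (Fin 2 → ℤ) → ℝ≥0∞ := fun k =>
    ∫⁻ z, Fk k z ^ (4 - δ) * Mk k z ^ (1 - (4 - δ) / 2) * Ω z with hAk
  set Bk : (Fin 2 → ℤ) → ℝ≥0∞ := fun k => ∫⁻ z, Mk k z * Ω z with hBk
  have hhol : ∀ k ∈ I, ∫⁻ z, Fk k z ^ 2 * Ω z ≤
      Ak k ^ (2 / (4 - δ)) * Bk k ^ (1 - 2 / (4 - δ)) := by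
    intro k hk
    refine holder1 (Fk k) (Mk k) Ω (hFkm k) (hMkm k) hΩm (fun z => ?_)
      (fun z => ENNReal.ofReal_ne_top) (4 - δ) hP2
    rw [hMk, Ne, ENNReal.ofReal_eq_zero, not_le]
    exact MS_pos _ R δ _ (hPfne k hk) z
  have hsum : ∑ k ∈ I, ∫⁻ z, Fk k z ^ 2 * Ω z ≤
      (∑ k ∈ I, Ak k) ^ (2 / (4 - δ)) * (∑ k ∈ I, Bk k) ^ (1 - 2 / (4 - δ)) := by
    refine (Finset.sum_le_sum hhol).trans (holder_sum I Ak Bk _ (by positivity) ?_)
    rw [div_lt_one hP0]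
    exact hP2
  -- the first integral
  have hAle : ∀ k ∈ I, Ak k ≤ ENNReal.ofReal (Ec * K ^ 2 * (D₃ / D₂) * (R ^ (lo 2 * δ) *
      (2 * a) ^ (4 - δ) * R ^ 2) * ((Pf k).card : ℝ)) := by
    intro k hk
    have hη : ‖ctr w⁻¹ k‖ ≤ 4 := by
      obtain ⟨W, hW, rfl⟩ := Finset.mem_image.mp hk
      have h1 := hg (ctr (sR R) W.1)
      have h2 := (hP W hW).2.1
      have h3 : w⁻¹ ≤ 1 := inv_le_one_of_one_le₀ hw1
      have h4 := norm_sub_norm_le (ctr w⁻¹ (g (ctr (sR R) W.1))) (ctr (sR R) W.1)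
      rw [norm_sub_rev] at h4
      linarith
    have hPfk : ∀ W ∈ Pf k, W ∈ P ∧ g (ctr (sR R) W.1) = k := fun W hW =>
      Finset.mem_filter.mp hW
    have h1 := hC κ R w (ctr w⁻¹ k) G (Pf k) Ω hκ0 hκ hR ((hcCE.trans hCfE).trans hCR) hG hsupp
      hw1 hwR1 hη (hPfne k hk) (fun W hW => ⟨(hP W (hPfk W hW).1).1, by
        have := hg (ctr (sR R) W.1)
        rwa [(hPfk W hW).2] at this⟩) hΩm
    have h2 : ∀ u, ∫⁻ y, Ω y * ENNReal.ofReal (wt (4 * N + 5) (Lo (ctr w⁻¹ k) w⁻¹ (y - u))) ≤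
        ENNReal.ofReal (cD * (2 * K) ^ 2 * (D₃ / D₂) * w ^ 4) := by
      intro u
      have h3 := hD R δ w (2 * K) D₂ D₃ (ctr w⁻¹ k) P' Q u hR hδ.le hw1 hwR (by linarith) hD₂0
        hD₃ hη (fun W' hW' => ⟨hP' W' hW', by
          obtain ⟨W, hW⟩ := hPfne k hk
          have h4 := hPP' W (hPfk W hW).1 W' hW'
          have h5 := hg (ctr (sR R) W.1)
          rw [(hPfk W hW).2] at h5
          have h6 : ‖ctr (sR R) W'.1 - ctr (sR R) W.1‖ ≤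
              ‖ctr (sR R) W'.1 - ctr w⁻¹ k‖ + ‖ctr (sR R) W.1 - ctr w⁻¹ k‖ := by
            rw [norm_sub_rev (ctr (sR R) W.1)]
            exact norm_sub_le_norm_sub_add_norm_sub _ _ _
          have h7 : w⁻¹ ≤ (8 * K)⁻¹ := inv_anti₀ (by linarith) hKw
          have h8 : (2 * K)⁻¹ + (8 * K)⁻¹ ≤ K⁻¹ := by
            rw [mul_inv, mul_inv]
            have : 0 < K⁻¹ := inv_pos.mpr (by linarith)
            linarith
          linarith⟩) hQ (fun x hx => (hQN x hx).2)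
      refine le_trans (le_of_eq ?_) h3
      refine lintegral_congr fun y => ?_
      rw [hΩ, ← ENNReal.ofReal_mul ((hO w Q hw0).2.1 y)]
    have h3 := hRD κ R (2 * a) G (Pf k) hκ0 hκ hR ((hcRE.trans hCfE).trans hCR) hG hsupp
      (by linarith) (hPfne k hk) (fun W hW => ⟨(hP W (hPfk W hW).1).1,
        (al_mono hPLN hCPS hWT1 hβ hκ hR hG hsupp N (2 * N + 2) (by omega) W).trans
          (hP W (hPfk W hW).1).2.2⟩)
    have h4 : ∫⁻ u, ‖∑ W ∈ Pf k, Fp β ψ R δ G W u‖ₑ ^ (4 - δ) *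
        ENNReal.ofReal (MS (2 * N + 2) R δ (Pf k) u) ^ (1 - (4 - δ) / 2) *
        ∫⁻ y, Ω y * ENNReal.ofReal (wt (4 * N + 5) (Lo (ctr w⁻¹ k) w⁻¹ (y - u))) ≤
        ENNReal.ofReal (cD * (2 * K) ^ 2 * (D₃ / D₂) * w ^ 4) *
        ENNReal.ofReal (cR * R ^ (lo 2 * δ) * (2 * a) ^ (4 - δ) * (Pf k).card *
          R ^ ((((2 : ℕ) : ℝ) + 2) / 2)) := by
      refine le_trans ?_ (mul_le_mul' le_rfl h3)
      have hmf : Measurable (fun u => ‖∑ W ∈ Pf k, Fp β ψ R δ G W u‖ₑ ^ (4 - δ) *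
          ENNReal.ofReal (MS (2 * N + 2) R δ (Pf k) u) ^ (1 - (4 - δ) / 2)) :=
        ((hFkm k).pow_const _).mul ((hMkm k).pow_const _)
      rw [← lintegral_const_mul _ hmf]
      refine lintegral_mono fun u => ?_
      rw [mul_comm (ENNReal.ofReal (cD * (2 * K) ^ 2 * (D₃ / D₂) * w ^ 4))]
      exact mul_le_mul' le_rfl (h2 u)
    refine (h1.trans (mul_le_mul' le_rfl h4)).trans (le_of_eq ?_)
    have h2a : (0 : ℝ) ≤ (2 * a) ^ (4 - δ) := Real.rpow_nonneg (by linarith) _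
    rw [← ENNReal.ofReal_mul (by positivity), ← ENNReal.ofReal_mul (by positivity)]
    congr 1
    have e1 : R ^ ((((2 : ℕ) : ℝ) + 2) / 2) = R ^ 2 := by
      rw [show ((((2 : ℕ) : ℝ) + 2) / 2) = ((2 : ℕ) : ℝ) by norm_num, Real.rpow_natCast]
    rw [e1, hEc]
    have e2 : w⁻¹ ^ (2 + 2) * w ^ 4 = 1 := by
      rw [inv_pow]
      exact inv_mul_cancel₀ (by positivity)
    calc _ = 4 * cC * cD * cR * K ^ 2 * (D₃ / D₂) * (R ^ (lo 2 * δ) *
          (2 * a) ^ (4 - δ) * R ^ 2) * ((Pf k).card : ℝ) * (w⁻¹ ^ (2 + 2) * w ^ 4) := by ring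
      _ = _ := by rw [e2, mul_one]
  have hcard : ∑ k ∈ I, ((Pf k).card : ℝ) = (P.card : ℝ) := by
    have := Finset.card_eq_sum_card_image (fun W => g (ctr (sR R) W.1)) P
    rw [this]
    push_cast
    rfl
  have hAsum : ∑ k ∈ I, Ak k ≤ ENNReal.ofReal ((Ec * K ^ 2 * (D₃ / D₂) * R ^ (lo 2 * δ) *
      R ^ 2 * P.card) * (2 * a) ^ (4 - δ)) := by
    refine (Finset.sum_le_sum hAle).trans (le_of_eq ?_)
    have h2a : (0 : ℝ) ≤ (2 * a) ^ (4 - δ) := Real.rpow_nonneg (by linarith) _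
    rw [← ENNReal.ofReal_sum_of_nonneg fun _ _ => by positivity, ← Finset.mul_sum, hcard]
    congr 1
    ring
  -- the second integral
  have hBsum : ∑ k ∈ I, Bk k ≤ ENNReal.ofReal (cL * R ^ δ * w ^ 4 * Q.card * D₁) := by
    have h1 := hL R δ w P Q hR hδ.le hRw hwR1 (fun W hW => (hP W hW).2.1)
    have h2 : ∑ k ∈ I, Bk k =
        ∫⁻ z, ENNReal.ofReal (MS (2 * N + 2) R δ P z * Om (4 * N + 5) w Q z) := by
      have h2a : ∑ k ∈ I, Bk k = ∫⁻ z, ∑ k ∈ I, Mk k z * Ω z :=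
        (lintegral_finsetSum I fun k _ => (hMkm k).mul hΩm).symm
      rw [h2a]
      refine lintegral_congr fun z => ?_
      rw [← Finset.sum_mul, hMk, ← ENNReal.ofReal_sum_of_nonneg fun _ _ => MS_nonneg _ R δ _ z,
        hΩ, ← ENNReal.ofReal_mul (Finset.sum_nonneg fun _ _ => MS_nonneg _ R δ _ z)]
      congr 2
      unfold MS
      exact Finset.sum_fiberwise_of_maps_to (fun W hW => Finset.mem_image_of_mem _ hW) _
    rw [h2]
    refine h1.trans (ENNReal.ofReal_le_ofReal ?_)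
    have h3 : ∑ x ∈ Q, Nd N R δ w P x ≤ Q.card * (w * D₁) := by
      calc ∑ x ∈ Q, Nd N R δ w P x ≤ ∑ x ∈ Q, w * D₁ :=
            Finset.sum_le_sum fun x hx => (hQN x hx).1
        _ = _ := by rw [Finset.sum_const, nsmul_eq_mul]
    calc cL * R ^ δ * w ^ (2 + 1) * ∑ x ∈ Q, Nd N R δ w P x
        ≤ cL * R ^ δ * w ^ (2 + 1) * (Q.card * (w * D₁)) :=
          mul_le_mul_of_nonneg_left h3 (by positivity)
      _ = _ := by ring
  -- conclusion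
  set A₀ : ℝ := Ec * K ^ 2 * (D₃ / D₂) * R ^ (lo 2 * δ) * R ^ 2 * P.card with hA₀
  set B₀ : ℝ := cL * R ^ δ * w ^ 4 * Q.card * D₁ with hB₀
  have hPc0 : (0 : ℝ) < P.card := by exact_mod_cast Finset.card_pos.mpr hPne
  have hQc1 : (1 : ℝ) ≤ Q.card := by exact_mod_cast Finset.card_pos.mpr ⟨x₀, hx₀⟩
  have hA₀0 : 0 < A₀ := by positivity
  have hB₀0 : 0 < B₀ := by positivity
  have hlo : lo 2 = 400 := by unfold lo; norm_num
  have hmain : (X.card : ℝ) * H ^ 2 ≤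
      cA * ((A₀ * (2 * a) ^ (4 - δ)) ^ (2 / (4 - δ)) * B₀ ^ (1 - 2 / (4 - δ))) := by
    have h2a : (0 : ℝ) ≤ (2 * a) ^ (4 - δ) := Real.rpow_nonneg (by linarith) _
    have hθ : (0 : ℝ) ≤ 1 - 2 / (4 - δ) := by
      rw [sub_nonneg, div_le_one hP0]; exact hP2.le
    rw [← ENNReal.ofReal_le_ofReal_iff (by positivity)]
    refine hlow.trans (hstep1.trans ?_)
    rw [ENNReal.ofReal_mul (by positivity)]
    refine mul_le_mul' le_rfl (hsum.trans ?_)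
    rw [ENNReal.ofReal_mul (by positivity), ← ENNReal.ofReal_rpow_of_nonneg (by positivity)
      (by positivity), ← ENNReal.ofReal_rpow_of_nonneg (by positivity) hθ]
    exact mul_le_mul' (ENNReal.rpow_le_rpow hAsum (by positivity))
      (ENNReal.rpow_le_rpow hBsum hθ)
  have hA₀' : A₀ ≤ Ec * R ^ (38 : ℝ) := by
    have h1 : K ^ 2 ≤ R ^ (1 : ℝ) := by
      have h2 : K ≤ w := by linarith
      have h3 : K ^ 2 ≤ w ^ 2 := pow_le_pow_left₀ (by linarith) h2 2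
      have h4 : Real.sqrt R ≤ R := by
        rw [Real.sqrt_le_left (by linarith)]
        nlinarith
      rw [Real.rpow_one]
      linarith
    have h2 : D₃ / D₂ ≤ R ^ (20 : ℝ) := by
      rw [div_le_iff₀ hD₂0]
      calc D₃ ≤ R ^ (10 : ℝ) := hD₃'
        _ = R ^ (20 : ℝ) * R ^ (-(10 : ℝ)) := by
            rw [← Real.rpow_add hR0]; norm_num
        _ ≤ R ^ (20 : ℝ) * D₂ := mul_le_mul_of_nonneg_left hD₂ (by positivity)
    have h3 : R ^ (lo 2 * δ) ≤ R ^ (4 : ℝ) := by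
      refine Real.rpow_le_rpow_of_exponent_le hR ?_
      rw [hlo]
      linarith
    have h4 : R ^ 2 = R ^ (2 : ℝ) := (Real.rpow_two R).symm
    calc A₀ = Ec * (K ^ 2 * (D₃ / D₂) * R ^ (lo 2 * δ) * R ^ 2 * P.card) := by
          rw [hA₀]; ring
      _ ≤ Ec * (R ^ (1 : ℝ) * R ^ (20 : ℝ) * R ^ (4 : ℝ) * R ^ (2 : ℝ) * R ^ (10 : ℝ)) := by
          rw [h4]
          refine mul_le_mul_of_nonneg_left ?_ (by linarith)
          gcongr
      _ = Ec * R ^ (37 : ℝ) := by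
          rw [← Real.rpow_add hR0, ← Real.rpow_add hR0, ← Real.rpow_add hR0,
            ← Real.rpow_add hR0]
          norm_num
      _ ≤ _ := mul_le_mul_of_nonneg_left
          (Real.rpow_le_rpow_of_exponent_le hR (by norm_num)) (by linarith)
  have hB₀' : R ^ (-(10 : ℝ)) ≤ B₀ := by
    have h1 : 1 ≤ cL * R ^ δ * w ^ 4 * Q.card :=
      one_le_mul_of_one_le_of_one_le (one_le_mul_of_one_le_of_one_le
        (one_le_mul_of_one_le_of_one_le hcL (Real.one_le_rpow hR hδ.le)) (one_le_pow₀ hw1)) hQc1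
    calc R ^ (-(10 : ℝ)) ≤ 1 * D₁ := by rw [one_mul]; exact hD₁
      _ ≤ B₀ := mul_le_mul_of_nonneg_right h1 hD₁0.le
  have hfin := fin_real δ hδ hδ' _ a A₀ B₀ Ec R cA hE1 (by positivity) ha hR hA₀0 hA₀' hB₀' hmain
  refine hfin.trans ?_
  have hexp : R ^ (16 * δ) * R ^ (lo 2 * δ) * R ^ δ ≤ R ^ (lo 2 * (8 * δ)) := by
    rw [← Real.rpow_add hR0, ← Real.rpow_add hR0]
    refine Real.rpow_le_rpow_of_exponent_le hR ?_
    rw [hlo]
    linarith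
  calc 16 * cA ^ 2 * Ec * R ^ (16 * δ) * a ^ 4 * A₀ * B₀
      = (16 * cA ^ 2 * Ec ^ 2 * cL * K ^ 2 * (D₃ / D₂) * a ^ 4 * P.card * R ^ 2 *
          (Q.card * w ^ 4 * D₁)) * (R ^ (16 * δ) * R ^ (lo 2 * δ) * R ^ δ) := by
        rw [hA₀, hB₀]; ring
    _ ≤ (16 * cA ^ 2 * Ec ^ 2 * cL * K ^ 2 * (D₃ / D₂) * a ^ 4 * P.card * R ^ 2 *
          (Q.card * w ^ 4 * D₁)) * R ^ (lo 2 * (8 * δ)) :=
        mul_le_mul_of_nonneg_left hexp (by positivity)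
    _ = _ := by rw [hCf]; ring

end Pool.Agent.H46.B2.L2W
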